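import Mathlib
import Pool.Agent.Lib.MP_5efc61_nt.Defs
import Pool.Agent.Lib.MP_5efc61_nt.Data1
import Pool.Agent.Lib.MP_5efc61_nt.Data2
import Pool.Agent.Lib.MP_5efc61_nt.Data3
import Pool.Agent.Lib.MP_5efc61_nt.Bridge

/-!
# Small two-variable Mahler measures are limit points

For each of the sixty-one two-variable Laurent polynomials `Q` of the problem, the Mahler measure
of `Q` is a limit point of the set of Mahler measures of integer polynomials.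

The proof: in suitable coordinates `F(x, y)` of the exponent lattice the polynomial `Q` (divided by
a cyclotomic factor, if it has one) has exactly one term in its top row and one in its bottom row,
with coefficients `1` or `-1`. The one-variable polynomials `F(z, z^N)` have Mahler measures
converging to that of `Q` (theorem of Boyd and Lawton, proved in the imported files), all their
roots tend to the unit circle, and modulo every prime only a bounded number of roots collide.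
If the Mahler measure `M` of `Q` were isolated, `M` would be the Mahler measure of `F(z, z^N)` for
all large `N`; looking at the Galois action one finds that every inertia group fixes `M`, so that
`M` is rational by the theorem of Minkowski, hence `M = 1`, which is false.
-/

open Pool.Agent.Lib.MP_5efc61_nt

namespace Pool.Agent.Results.MP_5efc61_nt.SmallMahlerLimitPoints

/-- the polynomial number 1 of the problem -/
noncomputable def Q1 (x y : ℂ) : ℂ :=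
  y * x ^ 4 - x ^ 3 - y - y⁻¹ - x ^ (-3 : ℤ) + y⁻¹ * x ^ (-4 : ℤ)

/-- the polynomial number 2 of the problem -/
noncomputable def Q2 (x y : ℂ) : ℂ :=
  x + y + 1 + y⁻¹ + x⁻¹

/-- the polynomial number 3 of the problem -/
noncomputable def Q3 (x y : ℂ) : ℂ :=
  y * x ^ 2 + x ^ 2 + y * x - 1 + y⁻¹ * x⁻¹ + x ^ (-2 : ℤ) + y⁻¹ * x ^ (-2 : ℤ)

/-- the polynomial number 4 of the problem -/
noncomputable def Q4 (x y : ℂ) : ℂ :=
  y * x ^ 6 + x ^ 5 + y + y⁻¹ + x ^ (-5 : ℤ) + y⁻¹ * x ^ (-6 : ℤ)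

/-- the polynomial number 5 of the problem -/
noncomputable def Q5 (x y : ℂ) : ℂ :=
  y ^ 4 * x ^ 5 + x + y + y⁻¹ + x⁻¹ + y ^ (-4 : ℤ) * x ^ (-5 : ℤ)

/-- the polynomial number 6 of the problem -/
noncomputable def Q6 (x y : ℂ) : ℂ :=
  x ^ 3 + y ^ 2 * x ^ 2 + y ^ 3 - y ^ (-3 : ℤ) - y ^ (-2 : ℤ) * x ^ (-2 : ℤ) - x ^ (-3 : ℤ)

/-- the polynomial number 7 of the problem -/
noncomputable def Q7 (x y : ℂ) : ℂ :=
  x ^ 5 - y * x ^ 4 + y + y⁻¹ - y⁻¹ * x ^ (-4 : ℤ) + x ^ (-5 : ℤ)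

/-- the polynomial number 8 of the problem -/
noncomputable def Q8 (x y : ℂ) : ℂ :=
  x ^ 2 + x + y + y⁻¹ + x⁻¹ + x ^ (-2 : ℤ)

/-- the polynomial number 9 of the problem -/
noncomputable def Q9 (x y : ℂ) : ℂ :=
  x ^ 3 + y * x + y ^ 3 - y ^ (-3 : ℤ) - y⁻¹ * x⁻¹ - x ^ (-3 : ℤ)

/-- the polynomial number 10 of the problem -/
noncomputable def Q10 (x y : ℂ) : ℂ :=
  y * x ^ 8 - x ^ 7 - y - y⁻¹ - x ^ (-7 : ℤ) + y⁻¹ * x ^ (-8 : ℤ)

/-- the polynomial number 11 of the problem -/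
noncomputable def Q11 (x y : ℂ) : ℂ :=
  y * x ^ 6 + x + y + y⁻¹ + x⁻¹ + y⁻¹ * x ^ (-6 : ℤ)

/-- the polynomial number 12 of the problem -/
noncomputable def Q12 (x y : ℂ) : ℂ :=
  y ^ 4 * x ^ 5 + x ^ 3 + y ^ 3 + y ^ (-3 : ℤ) + x ^ (-3 : ℤ) + y ^ (-4 : ℤ) * x ^ (-5 : ℤ)

/-- the polynomial number 13 of the problem -/
noncomputable def Q13 (x y : ℂ) : ℂ :=
  x ^ 7 + y ^ 2 * x ^ 5 + y ^ 7 + y ^ (-7 : ℤ) + y ^ (-2 : ℤ) * x ^ (-5 : ℤ) + x ^ (-7 : ℤ)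

/-- the polynomial number 14 of the problem -/
noncomputable def Q14 (x y : ℂ) : ℂ :=
  x ^ 7 + y * x ^ 6 + y + y⁻¹ + y⁻¹ * x ^ (-6 : ℤ) + x ^ (-7 : ℤ)

/-- the polynomial number 15 of the problem -/
noncomputable def Q15 (x y : ℂ) : ℂ :=
  x ^ 5 - x ^ 3 + y + y⁻¹ - x ^ (-3 : ℤ) + x ^ (-5 : ℤ)

/-- the polynomial number 16 of the problem -/
noncomputable def Q16 (x y : ℂ) : ℂ :=
  y * x ^ 8 - x ^ 5 - y - y⁻¹ - x ^ (-5 : ℤ) + y⁻¹ * x ^ (-8 : ℤ)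

/-- the polynomial number 17 of the problem -/
noncomputable def Q17 (x y : ℂ) : ℂ :=
  x ^ 10 + y ^ 9 * x ^ 9 + y ^ 10 + y ^ (-10 : ℤ) + y ^ (-9 : ℤ) * x ^ (-9 : ℤ) + x ^ (-10 : ℤ)

/-- the polynomial number 18 of the problem -/
noncomputable def Q18 (x y : ℂ) : ℂ :=
  x ^ 3 + y * x + y + y⁻¹ + y⁻¹ * x⁻¹ + x ^ (-3 : ℤ)

/-- the polynomial number 19 of the problem -/
noncomputable def Q19 (x y : ℂ) : ℂ :=
  y * x ^ 8 - x ^ 3 - y - y⁻¹ - x ^ (-3 : ℤ) + y⁻¹ * x ^ (-8 : ℤ)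

/-- the polynomial number 20 of the problem -/
noncomputable def Q20 (x y : ℂ) : ℂ :=
  x ^ 5 + y ^ 4 * x ^ 4 + y ^ 5 - y ^ (-5 : ℤ) - y ^ (-4 : ℤ) * x ^ (-4 : ℤ) - x ^ (-5 : ℤ)

/-- the polynomial number 21 of the problem -/
noncomputable def Q21 (x y : ℂ) : ℂ :=
  y * x ^ 3 + x ^ 3 + y * x ^ 2 - x - 1 - x⁻¹ + y⁻¹ * x ^ (-2 : ℤ) + x ^ (-3 : ℤ)
    + y⁻¹ * x ^ (-3 : ℤ)

/-- the polynomial number 22 of the problem -/
noncomputable def Q22 (x y : ℂ) : ℂ :=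
  y * x ^ 8 - x - y - y⁻¹ - x⁻¹ + y⁻¹ * x ^ (-8 : ℤ)

/-- the polynomial number 23 of the problem -/
noncomputable def Q23 (x y : ℂ) : ℂ :=
  y ^ 9 * x ^ 9 + x ^ 8 - y ^ 8 - y ^ (-8 : ℤ) + x ^ (-8 : ℤ) + y ^ (-9 : ℤ) * x ^ (-9 : ℤ)

/-- the polynomial number 24 of the problem -/
noncomputable def Q24 (x y : ℂ) : ℂ :=
  y ^ 7 * x ^ 6 - x ^ 5 - y ^ 5 - y ^ (-5 : ℤ) - x ^ (-5 : ℤ) + y ^ (-7 : ℤ) * x ^ (-6 : ℤ)

/-- the polynomial number 25 of the problem -/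
noncomputable def Q25 (x y : ℂ) : ℂ :=
  y * x ^ 12 + x ^ 11 - y + y⁻¹ - x ^ (-11 : ℤ) - y⁻¹ * x ^ (-12 : ℤ)

/-- the polynomial number 26 of the problem -/
noncomputable def Q26 (x y : ℂ) : ℂ :=
  x ^ 7 + x ^ 5 + y + y⁻¹ + x ^ (-5 : ℤ) + x ^ (-7 : ℤ)

/-- the polynomial number 27 of the problem -/
noncomputable def Q27 (x y : ℂ) : ℂ :=
  y ^ 7 * x ^ 8 + x + y + y⁻¹ + x⁻¹ + y ^ (-7 : ℤ) * x ^ (-8 : ℤ)

/-- the polynomial number 28 of the problem -/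
noncomputable def Q28 (x y : ℂ) : ℂ :=
  y * x ^ 10 + x ^ 7 + y + y⁻¹ + x ^ (-7 : ℤ) + y⁻¹ * x ^ (-10 : ℤ)

/-- the polynomial number 29 of the problem -/
noncomputable def Q29 (x y : ℂ) : ℂ :=
  y ^ 7 * x ^ 4 - x - y - y⁻¹ - x⁻¹ + y ^ (-7 : ℤ) * x ^ (-4 : ℤ)

/-- the polynomial number 30 of the problem -/
noncomputable def Q30 (x y : ℂ) : ℂ :=
  x ^ 5 + y ^ 3 * x ^ 3 + y ^ 5 - y ^ (-5 : ℤ) - y ^ (-3 : ℤ) * x ^ (-3 : ℤ) - x ^ (-5 : ℤ)

/-- the polynomial number 31 of the problem -/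
noncomputable def Q31 (x y : ℂ) : ℂ :=
  x ^ 4 + x + y + y⁻¹ + x⁻¹ + x ^ (-4 : ℤ)

/-- the polynomial number 32 of the problem -/
noncomputable def Q32 (x y : ℂ) : ℂ :=
  x ^ 5 - y ^ 2 * x ^ 3 + y ^ 5 + y ^ (-5 : ℤ) - y ^ (-2 : ℤ) * x ^ (-3 : ℤ) + x ^ (-5 : ℤ)

/-- the polynomial number 33 of the problem -/
noncomputable def Q33 (x y : ℂ) : ℂ :=
  y * x ^ 2 + x + y ^ 3 + y ^ (-3 : ℤ) + x⁻¹ + y⁻¹ * x ^ (-2 : ℤ)

/-- the polynomial number 34 of the problem -/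
noncomputable def Q34 (x y : ℂ) : ℂ :=
  y * x ^ 14 + x ^ 13 - y + y⁻¹ - x ^ (-13 : ℤ) - y⁻¹ * x ^ (-14 : ℤ)

/-- the polynomial number 35 of the problem -/
noncomputable def Q35 (x y : ℂ) : ℂ :=
  y ^ 11 * x ^ 11 + x ^ 10 + y ^ 10 + y ^ (-10 : ℤ) + x ^ (-10 : ℤ)
    + y ^ (-11 : ℤ) * x ^ (-11 : ℤ)

/-- the polynomial number 36 of the problem -/
noncomputable def Q36 (x y : ℂ) : ℂ :=
  x ^ 9 - x ^ 5 + y + y⁻¹ - x ^ (-5 : ℤ) + x ^ (-9 : ℤ)

/-- the polynomial number 37 of the problem -/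
noncomputable def Q37 (x y : ℂ) : ℂ :=
  y ^ 9 * x ^ 8 + x ^ 7 + y ^ 7 + y ^ (-7 : ℤ) + x ^ (-7 : ℤ) + y ^ (-9 : ℤ) * x ^ (-8 : ℤ)

/-- the polynomial number 38 of the problem -/
noncomputable def Q38 (x y : ℂ) : ℂ :=
  x ^ 5 + y ^ 2 * x ^ 2 + y ^ 5 - y ^ (-5 : ℤ) - y ^ (-2 : ℤ) * x ^ (-2 : ℤ) - x ^ (-5 : ℤ)

/-- the polynomial number 39 of the problem -/
noncomputable def Q39 (x y : ℂ) : ℂ :=
  y ^ 2 * x ^ 2 + y * x ^ 2 + y ^ 2 * x + y * x - y⁻¹ * x - y * x⁻¹ + y⁻¹ * x⁻¹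
    + y ^ (-2 : ℤ) * x⁻¹ + y⁻¹ * x ^ (-2 : ℤ) + y ^ (-2 : ℤ) * x ^ (-2 : ℤ)

/-- the polynomial number 40 of the problem -/
noncomputable def Q40 (x y : ℂ) : ℂ :=
  y * x ^ 10 + x ^ 3 + y + y⁻¹ + x ^ (-3 : ℤ) + y⁻¹ * x ^ (-10 : ℤ)

/-- the polynomial number 41 of the problem -/
noncomputable def Q41 (x y : ℂ) : ℂ :=
  y ^ 2 * x ^ 7 - x ^ 3 - y - y⁻¹ - x ^ (-3 : ℤ) + y ^ (-2 : ℤ) * x ^ (-7 : ℤ)

/-- the polynomial number 42 of the problem -/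
noncomputable def Q42 (x y : ℂ) : ℂ :=
  y ^ 2 * x ^ 9 - x ^ 5 - y - y⁻¹ - x ^ (-5 : ℤ) + y ^ (-2 : ℤ) * x ^ (-9 : ℤ)

/-- the polynomial number 43 of the problem -/
noncomputable def Q43 (x y : ℂ) : ℂ :=
  y ^ 7 * x ^ 8 + x ^ 3 + y ^ 3 + y ^ (-3 : ℤ) + x ^ (-3 : ℤ) + y ^ (-7 : ℤ) * x ^ (-8 : ℤ)

/-- the polynomial number 44 of the problem -/
noncomputable def Q44 (x y : ℂ) : ℂ :=
  x ^ 5 + y * x + y ^ 5 - y ^ (-5 : ℤ) - y⁻¹ * x⁻¹ - x ^ (-5 : ℤ)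

/-- the polynomial number 45 of the problem -/
noncomputable def Q45 (x y : ℂ) : ℂ :=
  y * x ^ 10 + x + y + y⁻¹ + x⁻¹ + y⁻¹ * x ^ (-10 : ℤ)

/-- the polynomial number 46 of the problem -/
noncomputable def Q46 (x y : ℂ) : ℂ :=
  x ^ 5 - y * x ^ 2 + y + y⁻¹ - y⁻¹ * x ^ (-2 : ℤ) + x ^ (-5 : ℤ)

/-- the polynomial number 47 of the problem -/
noncomputable def Q47 (x y : ℂ) : ℂ :=
  x ^ 7 + y ^ 6 * x ^ 6 + y ^ 7 - y ^ (-7 : ℤ) - y ^ (-6 : ℤ) * x ^ (-6 : ℤ) - x ^ (-7 : ℤ)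

/-- the polynomial number 48 of the problem -/
noncomputable def Q48 (x y : ℂ) : ℂ :=
  x ^ 7 + y ^ 4 * x ^ 5 + y ^ 7 + y ^ (-7 : ℤ) + y ^ (-4 : ℤ) * x ^ (-5 : ℤ) + x ^ (-7 : ℤ)

/-- the polynomial number 49 of the problem -/
noncomputable def Q49 (x y : ℂ) : ℂ :=
  y * x ^ 16 + x ^ 15 - y + y⁻¹ - x ^ (-15 : ℤ) - y⁻¹ * x ^ (-16 : ℤ)

/-- the polynomial number 50 of the problem -/
noncomputable def Q50 (x y : ℂ) : ℂ :=
  x ^ 11 + y ^ 7 * x ^ 4 + y ^ 11 + y ^ (-11 : ℤ) + y ^ (-7 : ℤ) * x ^ (-4 : ℤ) + x ^ (-11 : ℤ)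

/-- the polynomial number 51 of the problem -/
noncomputable def Q51 (x y : ℂ) : ℂ :=
  x ^ 9 - y ^ 2 * x ^ 5 + y ^ 9 + y ^ (-9 : ℤ) - y ^ (-2 : ℤ) * x ^ (-5 : ℤ) + x ^ (-9 : ℤ)

/-- the polynomial number 52 of the problem -/
noncomputable def Q52 (x y : ℂ) : ℂ :=
  x ^ 13 + y * x ^ 12 - y + y⁻¹ - y⁻¹ * x ^ (-12 : ℤ) - x ^ (-13 : ℤ)

/-- the polynomial number 53 of the problem -/
noncomputable def Q53 (x y : ℂ) : ℂ :=
  y ^ 9 * x ^ 9 + x ^ 2 + y ^ 2 + y ^ (-2 : ℤ) + x ^ (-2 : ℤ) + y ^ (-9 : ℤ) * x ^ (-9 : ℤ)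

/-- the polynomial number 54 of the problem -/
noncomputable def Q54 (x y : ℂ) : ℂ :=
  y * x ^ 3 + x ^ 3 + y * x ^ 2 + x ^ 2 - 1 + x ^ (-2 : ℤ) + y⁻¹ * x ^ (-2 : ℤ) + x ^ (-3 : ℤ)
    + y⁻¹ * x ^ (-3 : ℤ)

/-- the polynomial number 55 of the problem -/
noncomputable def Q55 (x y : ℂ) : ℂ :=
  y * x ^ 8 - x ^ 3 - y ^ 3 - y ^ (-3 : ℤ) - x ^ (-3 : ℤ) + y⁻¹ * x ^ (-8 : ℤ)

/-- the polynomial number 56 of the problem -/
noncomputable def Q56 (x y : ℂ) : ℂ :=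
  y * x ^ 12 - x ^ 7 - y - y⁻¹ - x ^ (-7 : ℤ) + y⁻¹ * x ^ (-12 : ℤ)

/-- the polynomial number 57 of the problem -/
noncomputable def Q57 (x y : ℂ) : ℂ :=
  y ^ 11 * x ^ 10 - x ^ 9 - y ^ 9 - y ^ (-9 : ℤ) - x ^ (-9 : ℤ) + y ^ (-11 : ℤ) * x ^ (-10 : ℤ)

/-- the polynomial number 58 of the problem -/
noncomputable def Q58 (x y : ℂ) : ℂ :=
  y * x ^ 14 + x ^ 11 - y + y⁻¹ - x ^ (-11 : ℤ) - y⁻¹ * x ^ (-14 : ℤ)

/-- the polynomial number 59 of the problem -/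
noncomputable def Q59 (x y : ℂ) : ℂ :=
  x ^ 9 - y ^ 7 * x ^ 4 + y ^ 9 + y ^ (-9 : ℤ) - y ^ (-7 : ℤ) * x ^ (-4 : ℤ) + x ^ (-9 : ℤ)

/-- the polynomial number 60 of the problem -/
noncomputable def Q60 (x y : ℂ) : ℂ :=
  y ^ 11 * x ^ 6 - x - y - y⁻¹ - x⁻¹ + y ^ (-11 : ℤ) * x ^ (-6 : ℤ)

/-- the polynomial number 61 of the problem -/
noncomputable def Q61 (x y : ℂ) : ℂ :=
  x ^ 5 + x ^ 4 + y + y⁻¹ + x ^ (-4 : ℤ) + x ^ (-5 : ℤ)

/-- the list of the sixty-one polynomials of the problem -/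
noncomputable def Qs : List (ℂ → ℂ → ℂ) :=
  [Q1, Q2, Q3, Q4, Q5, Q6, Q7, Q8, Q9, Q10, Q11, Q12, Q13, Q14, Q15, Q16, Q17, Q18, Q19, Q20,
   Q21, Q22, Q23, Q24, Q25, Q26, Q27, Q28, Q29, Q30, Q31, Q32, Q33, Q34, Q35, Q36, Q37, Q38,
   Q39, Q40, Q41, Q42, Q43, Q44, Q45, Q46, Q47, Q48, Q49, Q50, Q51, Q52, Q53, Q54, Q55, Q56,
   Q57, Q58, Q59, Q60, Q61]

theorem lim1 : IsLimitPoint mahlerSet (mahler fun z : Fin 2 → ℂ => Q1 (z 0) (z 1)) := by
  rw [mahler_eq_mQ Q1 q1 ?_]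
  · exact lp1
  · intro x y
    simp [Q1, q1, evL, zpow_neg, zpow_ofNat]
    try ring

theorem lim2 : IsLimitPoint mahlerSet (mahler fun z : Fin 2 → ℂ => Q2 (z 0) (z 1)) := by
  rw [mahler_eq_mQ Q2 q2 ?_]
  · exact lp2
  · intro x y
    simp [Q2, q2, evL, zpow_neg, zpow_ofNat]
    try ring

theorem lim3 : IsLimitPoint mahlerSet (mahler fun z : Fin 2 → ℂ => Q3 (z 0) (z 1)) := by
  rw [mahler_eq_mQ Q3 q3 ?_]
  · exact lp3
  · intro x y
    simp [Q3, q3, evL, zpow_neg, zpow_ofNat]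
    try ring

theorem lim4 : IsLimitPoint mahlerSet (mahler fun z : Fin 2 → ℂ => Q4 (z 0) (z 1)) := by
  rw [mahler_eq_mQ Q4 q4 ?_]
  · exact lp4
  · intro x y
    simp [Q4, q4, evL, zpow_neg, zpow_ofNat]
    try ring

theorem lim5 : IsLimitPoint mahlerSet (mahler fun z : Fin 2 → ℂ => Q5 (z 0) (z 1)) := by
  rw [mahler_eq_mQ Q5 q5 ?_]
  · exact lp5
  · intro x y
    simp [Q5, q5, evL, zpow_neg, zpow_ofNat]
    try ring

theorem lim6 : IsLimitPoint mahlerSet (mahler fun z : Fin 2 → ℂ => Q6 (z 0) (z 1)) := by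
  rw [mahler_eq_mQ Q6 q6 ?_]
  · exact lp6
  · intro x y
    simp [Q6, q6, evL, zpow_neg, zpow_ofNat]
    try ring

theorem lim7 : IsLimitPoint mahlerSet (mahler fun z : Fin 2 → ℂ => Q7 (z 0) (z 1)) := by
  rw [mahler_eq_mQ Q7 q7 ?_]
  · exact lp7
  · intro x y
    simp [Q7, q7, evL, zpow_neg, zpow_ofNat]
    try ring

theorem lim8 : IsLimitPoint mahlerSet (mahler fun z : Fin 2 → ℂ => Q8 (z 0) (z 1)) := by
  rw [mahler_eq_mQ Q8 q8 ?_]
  · exact lp8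
  · intro x y
    simp [Q8, q8, evL, zpow_neg, zpow_ofNat]
    try ring

theorem lim9 : IsLimitPoint mahlerSet (mahler fun z : Fin 2 → ℂ => Q9 (z 0) (z 1)) := by
  rw [mahler_eq_mQ Q9 q9 ?_]
  · exact lp9
  · intro x y
    simp [Q9, q9, evL, zpow_neg, zpow_ofNat]
    try ring

theorem lim10 : IsLimitPoint mahlerSet (mahler fun z : Fin 2 → ℂ => Q10 (z 0) (z 1)) := by
  rw [mahler_eq_mQ Q10 q10 ?_]
  · exact lp10
  · intro x y
    simp [Q10, q10, evL, zpow_neg, zpow_ofNat]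
    try ring

theorem lim11 : IsLimitPoint mahlerSet (mahler fun z : Fin 2 → ℂ => Q11 (z 0) (z 1)) := by
  rw [mahler_eq_mQ Q11 q11 ?_]
  · exact lp11
  · intro x y
    simp [Q11, q11, evL, zpow_neg, zpow_ofNat]
    try ring

theorem lim12 : IsLimitPoint mahlerSet (mahler fun z : Fin 2 → ℂ => Q12 (z 0) (z 1)) := by
  rw [mahler_eq_mQ Q12 q12 ?_]
  · exact lp12
  · intro x y
    simp [Q12, q12, evL, zpow_neg, zpow_ofNat]
    try ring

theorem lim13 : IsLimitPoint mahlerSet (mahler fun z : Fin 2 → ℂ => Q13 (z 0) (z 1)) := by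
  rw [mahler_eq_mQ Q13 q13 ?_]
  · exact lp13
  · intro x y
    simp [Q13, q13, evL, zpow_neg, zpow_ofNat]
    try ring

theorem lim14 : IsLimitPoint mahlerSet (mahler fun z : Fin 2 → ℂ => Q14 (z 0) (z 1)) := by
  rw [mahler_eq_mQ Q14 q14 ?_]
  · exact lp14
  · intro x y
    simp [Q14, q14, evL, zpow_neg, zpow_ofNat]
    try ring

theorem lim15 : IsLimitPoint mahlerSet (mahler fun z : Fin 2 → ℂ => Q15 (z 0) (z 1)) := by
  rw [mahler_eq_mQ Q15 q15 ?_]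
  · exact lp15
  · intro x y
    simp [Q15, q15, evL, zpow_neg, zpow_ofNat]
    try ring

theorem lim16 : IsLimitPoint mahlerSet (mahler fun z : Fin 2 → ℂ => Q16 (z 0) (z 1)) := by
  rw [mahler_eq_mQ Q16 q16 ?_]
  · exact lp16
  · intro x y
    simp [Q16, q16, evL, zpow_neg, zpow_ofNat]
    try ring

theorem lim17 : IsLimitPoint mahlerSet (mahler fun z : Fin 2 → ℂ => Q17 (z 0) (z 1)) := by
  rw [mahler_eq_mQ Q17 q17 ?_]
  · exact lp17
  · intro x y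
    simp [Q17, q17, evL, zpow_neg, zpow_ofNat]
    try ring

theorem lim18 : IsLimitPoint mahlerSet (mahler fun z : Fin 2 → ℂ => Q18 (z 0) (z 1)) := by
  rw [mahler_eq_mQ Q18 q18 ?_]
  · exact lp18
  · intro x y
    simp [Q18, q18, evL, zpow_neg, zpow_ofNat]
    try ring

theorem lim19 : IsLimitPoint mahlerSet (mahler fun z : Fin 2 → ℂ => Q19 (z 0) (z 1)) := by
  rw [mahler_eq_mQ Q19 q19 ?_]
  · exact lp19
  · intro x y
    simp [Q19, q19, evL, zpow_neg, zpow_ofNat]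
    try ring

theorem lim20 : IsLimitPoint mahlerSet (mahler fun z : Fin 2 → ℂ => Q20 (z 0) (z 1)) := by
  rw [mahler_eq_mQ Q20 q20 ?_]
  · exact lp20
  · intro x y
    simp [Q20, q20, evL, zpow_neg, zpow_ofNat]
    try ring

theorem lim21 : IsLimitPoint mahlerSet (mahler fun z : Fin 2 → ℂ => Q21 (z 0) (z 1)) := by
  rw [mahler_eq_mQ Q21 q21 ?_]
  · exact lp21
  · intro x y
    simp [Q21, q21, evL, zpow_neg, zpow_ofNat]
    try ring

theorem lim22 : IsLimitPoint mahlerSet (mahler fun z : Fin 2 → ℂ => Q22 (z 0) (z 1)) := by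
  rw [mahler_eq_mQ Q22 q22 ?_]
  · exact lp22
  · intro x y
    simp [Q22, q22, evL, zpow_neg, zpow_ofNat]
    try ring

theorem lim23 : IsLimitPoint mahlerSet (mahler fun z : Fin 2 → ℂ => Q23 (z 0) (z 1)) := by
  rw [mahler_eq_mQ Q23 q23 ?_]
  · exact lp23
  · intro x y
    simp [Q23, q23, evL, zpow_neg, zpow_ofNat]
    try ring

theorem lim24 : IsLimitPoint mahlerSet (mahler fun z : Fin 2 → ℂ => Q24 (z 0) (z 1)) := by
  rw [mahler_eq_mQ Q24 q24 ?_]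
  · exact lp24
  · intro x y
    simp [Q24, q24, evL, zpow_neg, zpow_ofNat]
    try ring

theorem lim25 : IsLimitPoint mahlerSet (mahler fun z : Fin 2 → ℂ => Q25 (z 0) (z 1)) := by
  rw [mahler_eq_mQ Q25 q25 ?_]
  · exact lp25
  · intro x y
    simp [Q25, q25, evL, zpow_neg, zpow_ofNat]
    try ring

theorem lim26 : IsLimitPoint mahlerSet (mahler fun z : Fin 2 → ℂ => Q26 (z 0) (z 1)) := by
  rw [mahler_eq_mQ Q26 q26 ?_]
  · exact lp26
  · intro x y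
    simp [Q26, q26, evL, zpow_neg, zpow_ofNat]
    try ring

theorem lim27 : IsLimitPoint mahlerSet (mahler fun z : Fin 2 → ℂ => Q27 (z 0) (z 1)) := by
  rw [mahler_eq_mQ Q27 q27 ?_]
  · exact lp27
  · intro x y
    simp [Q27, q27, evL, zpow_neg, zpow_ofNat]
    try ring

theorem lim28 : IsLimitPoint mahlerSet (mahler fun z : Fin 2 → ℂ => Q28 (z 0) (z 1)) := by
  rw [mahler_eq_mQ Q28 q28 ?_]
  · exact lp28
  · intro x y
    simp [Q28, q28, evL, zpow_neg, zpow_ofNat]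
    try ring

theorem lim29 : IsLimitPoint mahlerSet (mahler fun z : Fin 2 → ℂ => Q29 (z 0) (z 1)) := by
  rw [mahler_eq_mQ Q29 q29 ?_]
  · exact lp29
  · intro x y
    simp [Q29, q29, evL, zpow_neg, zpow_ofNat]
    try ring

theorem lim30 : IsLimitPoint mahlerSet (mahler fun z : Fin 2 → ℂ => Q30 (z 0) (z 1)) := by
  rw [mahler_eq_mQ Q30 q30 ?_]
  · exact lp30
  · intro x y
    simp [Q30, q30, evL, zpow_neg, zpow_ofNat]
    try ring

theorem lim31 : IsLimitPoint mahlerSet (mahler fun z : Fin 2 → ℂ => Q31 (z 0) (z 1)) := by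
  rw [mahler_eq_mQ Q31 q31 ?_]
  · exact lp31
  · intro x y
    simp [Q31, q31, evL, zpow_neg, zpow_ofNat]
    try ring

theorem lim32 : IsLimitPoint mahlerSet (mahler fun z : Fin 2 → ℂ => Q32 (z 0) (z 1)) := by
  rw [mahler_eq_mQ Q32 q32 ?_]
  · exact lp32
  · intro x y
    simp [Q32, q32, evL, zpow_neg, zpow_ofNat]
    try ring

theorem lim33 : IsLimitPoint mahlerSet (mahler fun z : Fin 2 → ℂ => Q33 (z 0) (z 1)) := by
  rw [mahler_eq_mQ Q33 q33 ?_]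
  · exact lp33
  · intro x y
    simp [Q33, q33, evL, zpow_neg, zpow_ofNat]
    try ring

theorem lim34 : IsLimitPoint mahlerSet (mahler fun z : Fin 2 → ℂ => Q34 (z 0) (z 1)) := by
  rw [mahler_eq_mQ Q34 q34 ?_]
  · exact lp34
  · intro x y
    simp [Q34, q34, evL, zpow_neg, zpow_ofNat]
    try ring

theorem lim35 : IsLimitPoint mahlerSet (mahler fun z : Fin 2 → ℂ => Q35 (z 0) (z 1)) := by
  rw [mahler_eq_mQ Q35 q35 ?_]
  · exact lp35
  · intro x y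
    simp [Q35, q35, evL, zpow_neg, zpow_ofNat]
    try ring

theorem lim36 : IsLimitPoint mahlerSet (mahler fun z : Fin 2 → ℂ => Q36 (z 0) (z 1)) := by
  rw [mahler_eq_mQ Q36 q36 ?_]
  · exact lp36
  · intro x y
    simp [Q36, q36, evL, zpow_neg, zpow_ofNat]
    try ring

theorem lim37 : IsLimitPoint mahlerSet (mahler fun z : Fin 2 → ℂ => Q37 (z 0) (z 1)) := by
  rw [mahler_eq_mQ Q37 q37 ?_]
  · exact lp37
  · intro x y
    simp [Q37, q37, evL, zpow_neg, zpow_ofNat]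
    try ring

theorem lim38 : IsLimitPoint mahlerSet (mahler fun z : Fin 2 → ℂ => Q38 (z 0) (z 1)) := by
  rw [mahler_eq_mQ Q38 q38 ?_]
  · exact lp38
  · intro x y
    simp [Q38, q38, evL, zpow_neg, zpow_ofNat]
    try ring

theorem lim39 : IsLimitPoint mahlerSet (mahler fun z : Fin 2 → ℂ => Q39 (z 0) (z 1)) := by
  rw [mahler_eq_mQ Q39 q39 ?_]
  · exact lp39
  · intro x y
    simp [Q39, q39, evL, zpow_neg, zpow_ofNat]
    try ring

theorem lim40 : IsLimitPoint mahlerSet (mahler fun z : Fin 2 → ℂ => Q40 (z 0) (z 1)) := by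
  rw [mahler_eq_mQ Q40 q40 ?_]
  · exact lp40
  · intro x y
    simp [Q40, q40, evL, zpow_neg, zpow_ofNat]
    try ring

theorem lim41 : IsLimitPoint mahlerSet (mahler fun z : Fin 2 → ℂ => Q41 (z 0) (z 1)) := by
  rw [mahler_eq_mQ Q41 q41 ?_]
  · exact lp41
  · intro x y
    simp [Q41, q41, evL, zpow_neg, zpow_ofNat]
    try ring

theorem lim42 : IsLimitPoint mahlerSet (mahler fun z : Fin 2 → ℂ => Q42 (z 0) (z 1)) := by
  rw [mahler_eq_mQ Q42 q42 ?_]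
  · exact lp42
  · intro x y
    simp [Q42, q42, evL, zpow_neg, zpow_ofNat]
    try ring

theorem lim43 : IsLimitPoint mahlerSet (mahler fun z : Fin 2 → ℂ => Q43 (z 0) (z 1)) := by
  rw [mahler_eq_mQ Q43 q43 ?_]
  · exact lp43
  · intro x y
    simp [Q43, q43, evL, zpow_neg, zpow_ofNat]
    try ring

theorem lim44 : IsLimitPoint mahlerSet (mahler fun z : Fin 2 → ℂ => Q44 (z 0) (z 1)) := by
  rw [mahler_eq_mQ Q44 q44 ?_]
  · exact lp44
  · intro x y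
    simp [Q44, q44, evL, zpow_neg, zpow_ofNat]
    try ring

theorem lim45 : IsLimitPoint mahlerSet (mahler fun z : Fin 2 → ℂ => Q45 (z 0) (z 1)) := by
  rw [mahler_eq_mQ Q45 q45 ?_]
  · exact lp45
  · intro x y
    simp [Q45, q45, evL, zpow_neg, zpow_ofNat]
    try ring

theorem lim46 : IsLimitPoint mahlerSet (mahler fun z : Fin 2 → ℂ => Q46 (z 0) (z 1)) := by
  rw [mahler_eq_mQ Q46 q46 ?_]
  · exact lp46
  · intro x y
    simp [Q46, q46, evL, zpow_neg, zpow_ofNat]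
    try ring

theorem lim47 : IsLimitPoint mahlerSet (mahler fun z : Fin 2 → ℂ => Q47 (z 0) (z 1)) := by
  rw [mahler_eq_mQ Q47 q47 ?_]
  · exact lp47
  · intro x y
    simp [Q47, q47, evL, zpow_neg, zpow_ofNat]
    try ring

theorem lim48 : IsLimitPoint mahlerSet (mahler fun z : Fin 2 → ℂ => Q48 (z 0) (z 1)) := by
  rw [mahler_eq_mQ Q48 q48 ?_]
  · exact lp48
  · intro x y
    simp [Q48, q48, evL, zpow_neg, zpow_ofNat]
    try ring

theorem lim49 : IsLimitPoint mahlerSet (mahler fun z : Fin 2 → ℂ => Q49 (z 0) (z 1)) := by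
  rw [mahler_eq_mQ Q49 q49 ?_]
  · exact lp49
  · intro x y
    simp [Q49, q49, evL, zpow_neg, zpow_ofNat]
    try ring

theorem lim50 : IsLimitPoint mahlerSet (mahler fun z : Fin 2 → ℂ => Q50 (z 0) (z 1)) := by
  rw [mahler_eq_mQ Q50 q50 ?_]
  · exact lp50
  · intro x y
    simp [Q50, q50, evL, zpow_neg, zpow_ofNat]
    try ring

theorem lim51 : IsLimitPoint mahlerSet (mahler fun z : Fin 2 → ℂ => Q51 (z 0) (z 1)) := by
  rw [mahler_eq_mQ Q51 q51 ?_]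
  · exact lp51
  · intro x y
    simp [Q51, q51, evL, zpow_neg, zpow_ofNat]
    try ring

theorem lim52 : IsLimitPoint mahlerSet (mahler fun z : Fin 2 → ℂ => Q52 (z 0) (z 1)) := by
  rw [mahler_eq_mQ Q52 q52 ?_]
  · exact lp52
  · intro x y
    simp [Q52, q52, evL, zpow_neg, zpow_ofNat]
    try ring

theorem lim53 : IsLimitPoint mahlerSet (mahler fun z : Fin 2 → ℂ => Q53 (z 0) (z 1)) := by
  rw [mahler_eq_mQ Q53 q53 ?_]
  · exact lp53
  · intro x y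
    simp [Q53, q53, evL, zpow_neg, zpow_ofNat]
    try ring

theorem lim54 : IsLimitPoint mahlerSet (mahler fun z : Fin 2 → ℂ => Q54 (z 0) (z 1)) := by
  rw [mahler_eq_mQ Q54 q54 ?_]
  · exact lp54
  · intro x y
    simp [Q54, q54, evL, zpow_neg, zpow_ofNat]
    try ring

theorem lim55 : IsLimitPoint mahlerSet (mahler fun z : Fin 2 → ℂ => Q55 (z 0) (z 1)) := by
  rw [mahler_eq_mQ Q55 q55 ?_]
  · exact lp55
  · intro x y
    simp [Q55, q55, evL, zpow_neg, zpow_ofNat]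
    try ring

theorem lim56 : IsLimitPoint mahlerSet (mahler fun z : Fin 2 → ℂ => Q56 (z 0) (z 1)) := by
  rw [mahler_eq_mQ Q56 q56 ?_]
  · exact lp56
  · intro x y
    simp [Q56, q56, evL, zpow_neg, zpow_ofNat]
    try ring

theorem lim57 : IsLimitPoint mahlerSet (mahler fun z : Fin 2 → ℂ => Q57 (z 0) (z 1)) := by
  rw [mahler_eq_mQ Q57 q57 ?_]
  · exact lp57
  · intro x y
    simp [Q57, q57, evL, zpow_neg, zpow_ofNat]
    try ring

theorem lim58 : IsLimitPoint mahlerSet (mahler fun z : Fin 2 → ℂ => Q58 (z 0) (z 1)) := by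
  rw [mahler_eq_mQ Q58 q58 ?_]
  · exact lp58
  · intro x y
    simp [Q58, q58, evL, zpow_neg, zpow_ofNat]
    try ring

theorem lim59 : IsLimitPoint mahlerSet (mahler fun z : Fin 2 → ℂ => Q59 (z 0) (z 1)) := by
  rw [mahler_eq_mQ Q59 q59 ?_]
  · exact lp59
  · intro x y
    simp [Q59, q59, evL, zpow_neg, zpow_ofNat]
    try ring

theorem lim60 : IsLimitPoint mahlerSet (mahler fun z : Fin 2 → ℂ => Q60 (z 0) (z 1)) := by
  rw [mahler_eq_mQ Q60 q60 ?_]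
  · exact lp60
  · intro x y
    simp [Q60, q60, evL, zpow_neg, zpow_ofNat]
    try ring

theorem lim61 : IsLimitPoint mahlerSet (mahler fun z : Fin 2 → ℂ => Q61 (z 0) (z 1)) := by
  rw [mahler_eq_mQ Q61 q61 ?_]
  · exact lp61
  · intro x y
    simp [Q61, q61, evL, zpow_neg, zpow_ofNat]
    try ring

/-- **Main result.** For each of the sixty-one polynomials `Q` of the problem the Mahler measure
`M(Q)` is a limit point of the set of Mahler measures of integer polynomials. -/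
theorem result : ∀ Q ∈ Qs, IsLimitPoint mahlerSet (mahler fun z : Fin 2 → ℂ => Q (z 0) (z 1)) := by
  unfold Qs
  simp only [List.forall_mem_cons, List.not_mem_nil, false_imp_iff, implies_true, and_true]
  exact ⟨lim1, lim2, lim3, lim4, lim5, lim6, lim7, lim8, lim9, lim10, lim11, lim12, lim13,
    lim14, lim15, lim16, lim17, lim18, lim19, lim20, lim21, lim22, lim23, lim24, lim25,
    lim26, lim27, lim28, lim29, lim30, lim31, lim32, lim33, lim34, lim35, lim36, lim37,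
    lim38, lim39, lim40, lim41, lim42, lim43, lim44, lim45, lim46, lim47, lim48, lim49,
    lim50, lim51, lim52, lim53, lim54, lim55, lim56, lim57, lim58, lim59, lim60, lim61⟩

end Pool.Agent.Results.MP_5efc61_nt.SmallMahlerLimitPoints
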